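import Pool.Agent.N367.LE.Stm

/-! Basic facts on the characters. -/

namespace Pool.Agent.N367.LE

open H419R2 Pool.Agent.N911 Finset

theorem sval_mul (δ : ℤ) (b : ℕ) (x y : ℤ) : sval δ b (x * y) = sval δ b x * sval δ b y := by
  unfold sval
  split_ifs
  · push_cast; rw [map_mul]
  · push_cast; rw [map_mul]
  · exact jacobiSym.mul_left _ _ _

theorem sval_mod (δ : ℤ) (b : ℕ) (x y : ℤ) (h : (cb b : ℤ) ∣ x - y) : sval δ b x = sval δ b y := by
  unfold sval cb at *
  by_cases hb : b = 2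
  · subst hb
    simp only [if_true] at h ⊢
    have : ((x : ℤ) : ZMod 8) = ((y : ℤ) : ZMod 8) := by
      rw [← sub_eq_zero, ← Int.cast_sub]
      exact (ZMod.intCast_zmod_eq_zero_iff_dvd _ 8).mpr (by exact_mod_cast h)
    rw [this]
  · simp only [if_neg hb] at h ⊢
    exact jacobiSym.mod_left' (Int.modEq_iff_dvd.mpr h).symm

theorem psi_mul (δ : ℤ) (A : Finset ℕ) (x y : ℤ) : psi δ A (x * y) = psi δ A x * psi δ A y := by
  unfold psi
  rw [← Finset.prod_mul_distrib]
  exact Finset.prod_congr rfl (fun b _ => sval_mul δ b x y)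

theorem psi_mod (δ : ℤ) (A : Finset ℕ) (x y : ℤ) (h : (cond A : ℤ) ∣ x - y) :
    psi δ A x = psi δ A y := by
  unfold psi
  apply Finset.prod_congr rfl
  intro b hb
  apply sval_mod
  refine dvd_trans ?_ h
  unfold cond
  exact_mod_cast Finset.dvd_prod_of_mem cb hb

theorem psi_insert (δ : ℤ) {A : Finset ℕ} {b : ℕ} (hb : b ∉ A) (x : ℤ) :
    psi δ (insert b A) x = sval δ b x * psi δ A x := by
  unfold psi
  rw [Finset.prod_insert hb]

theorem cond_insert {A : Finset ℕ} {b : ℕ} (hb : b ∉ A) : cond (insert b A) = cb b * cond A := by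
  unfold cond
  rw [Finset.prod_insert hb]

theorem cond_pos {A : Finset ℕ} (h : ∀ b ∈ A, 0 < b) : 0 < cond A := by
  unfold cond cb
  apply Finset.prod_pos
  intro b hb
  split_ifs
  · norm_num
  · exact h b hb

theorem sval_neg_one (δ : ℤ) (hδ : δ = 8 ∨ δ = -8) {b : ℕ} (hb : b.Prime) :
    sval δ b (-1) = if (if b = 2 then δ = -8 else b % 4 = 3) then -1 else 1 := by
  unfold sval
  by_cases h2 : b = 2
  · subst h2
    rcases hδ with h | h
    · subst h; simp; decide
    · subst h; simp; decide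
  · simp only [if_neg h2]
    have hodd : Odd b := hb.odd_of_ne_two h2
    rw [jacobiSym.at_neg_one hodd, ZMod.χ₄_nat_eq_if_mod_four]
    have h1 : b % 2 = 1 := Nat.odd_iff.mp hodd
    split_ifs <;> first | rfl | omega

/-- sum over residues -/
theorem sum2_range {N : ℕ} [NeZero N] {M : Type*} [AddCommMonoid M] (h : ℕ → ℕ → M) :
    ∑ x ∈ range N, ∑ y ∈ range N, h x y = ∑ x : ZMod N, ∑ y : ZMod N, h x.val y.val := by
  rw [sum_range_zmod (fun x => ∑ y ∈ range N, h x y)]
  apply Finset.sum_congr rfl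
  intro x _
  exact sum_range_zmod (fun y => h x.val y)

theorem form_val (δ : ℤ) (S : Finset ℕ) [NeZero (cond S)] (n : ℕ) (x y : ZMod (cond S)) :
    chi δ S (1 * x ^ 2 + (n : ZMod (cond S)) * (x * y) - 1 * y ^ 2) =
      psi δ S ((x.val : ℤ) ^ 2 + n * (x.val * y.val) - (y.val : ℤ) ^ 2) := by
  unfold chi
  apply psi_mod
  rw [← ZMod.intCast_zmod_eq_zero_iff_dvd]
  push_cast
  simp only [ZMod.natCast_val, ZMod.cast_id', id_eq]
  ring

theorem SEr_eq (δ : ℤ) (S : Finset ℕ) [NeZero (cond S)] (n : ℕ) :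
    SE (chi δ S) 1 (n : ZMod (cond S)) 1 = SEr δ S n := by
  unfold SE SEr
  rw [sum2_range (N := cond S)]
  apply Finset.sum_congr rfl
  intro x _
  apply Finset.sum_congr rfl
  intro y _
  rw [form_val]
  congr 1
  unfold wE
  simp only [ZMod.val_eq_zero, Int.cast_id]

theorem SYr_eq (δ : ℤ) (S : Finset ℕ) [NeZero (cond S)] (n : ℕ) :
    SY (chi δ S) 1 (n : ZMod (cond S)) 1 = SYr δ S n := by
  unfold SY SYr
  rw [sum2_range (N := cond S)]
  apply Finset.sum_congr rfl
  intro x _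
  apply Finset.sum_congr rfl
  intro y _
  rw [form_val]
  congr 1

end Pool.Agent.N367.LE
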