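import Pool.Agent.N367.LE.Bit0

/-! From the parity of `T` and the relation to the bit congruences. -/

namespace Pool.Agent.N367.LE

open H419R2 Pool.Agent.N911 Finset

theorem arith_bit {D R c T1 T2 T3 T4 u1 u2 u3 u4 : ℤ} {k : ℕ} (hk : 1 ≤ k) (hD : D % 2 = 1)
    (hc : c = 1 ∨ c = 8) (h : D * R = 3 * (T1 * T2 + T3 * T4))
    (h1 : c * 2 ^ k ∣ T1 - c * 2 ^ (k - 1) * u1) (h2 : c * 2 ^ (k + 2) ∣ T2 - c * 2 ^ (k + 1) * u2)
    (h3 : c * 2 ^ (k + 1) ∣ T3 - c * 2 ^ k * u3) (h4 : c * 2 ^ (k + 1) ∣ T4 - c * 2 ^ k * u4) :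
    c ^ 2 * 2 ^ (2 * k + 1) ∣ R - c ^ 2 * 2 ^ (2 * k) * (u1 * u2 + u3 * u4) := by
  obtain ⟨j, rfl⟩ : ∃ j, k = j + 1 := ⟨k - 1, by omega⟩
  obtain ⟨x1, hx1⟩ := h1
  obtain ⟨x2, hx2⟩ := h2
  obtain ⟨x3, hx3⟩ := h3
  obtain ⟨x4, hx4⟩ := h4
  rw [show j + 1 - 1 = j by omega] at hx1
  have e1 : T1 = c * 2 ^ j * (u1 + 2 * x1) := by linear_combination hx1
  have e2 : T2 = c * 2 ^ j * 4 * (u2 + 2 * x2) := by
    have : (2 : ℤ) ^ (j + 1 + 1) = 2 ^ j * 4 := by ring
    have h8 : (2 : ℤ) ^ (j + 1 + 2) = 2 ^ j * 8 := by ring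
    rw [this, h8] at hx2
    linear_combination hx2
  have e3 : T3 = c * 2 ^ j * 2 * (u3 + 2 * x3) := by
    have : (2 : ℤ) ^ (j + 1 + 1) = 2 ^ j * 4 := by ring
    have h8 : (2 : ℤ) ^ (j + 1) = 2 ^ j * 2 := by ring
    rw [this, h8] at hx3
    linear_combination hx3
  have e4 : T4 = c * 2 ^ j * 2 * (u4 + 2 * x4) := by
    have : (2 : ℤ) ^ (j + 1 + 1) = 2 ^ j * 4 := by ring
    have h8 : (2 : ℤ) ^ (j + 1) = 2 ^ j * 2 := by ring
    rw [this, h8] at hx4
    linear_combination hx4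
  obtain ⟨d, hd⟩ : ∃ d, D = 2 * d + 1 := ⟨D / 2, by omega⟩
  have key : D * (R - c ^ 2 * 2 ^ (2 * (j + 1)) * (u1 * u2 + u3 * u4)) =
      (c ^ 2 * 2 ^ (2 * (j + 1) + 1)) * ((1 - d) * (u1 * u2 + u3 * u4) +
        3 * (u1 * x2 + x1 * u2 + 2 * x1 * x2 + u3 * x4 + x3 * u4 + 2 * x3 * x4)) := by
    rw [mul_sub, h, e1, e2, e3, e4, hd]
    ring
  have hcop : IsCoprime (c ^ 2 * 2 ^ (2 * (j + 1) + 1) : ℤ) D := by
    have h2D : IsCoprime (2 : ℤ) D := ⟨-d, 1, by rw [hd]; ring⟩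
    have h8 : IsCoprime c D := by
      rcases hc with hc | hc
      · rw [hc]; exact isCoprime_one_left
      · rw [hc]
        have : IsCoprime ((2 : ℤ) ^ 3) D := h2D.pow_left
        norm_num at this
        exact this
    exact IsCoprime.mul_left h8.pow_left h2D.pow_left
  exact hcop.dvd_of_dvd_mul_left (Dvd.intro _ key.symm)

theorem chi_nat (δ : ℤ) (S : Finset ℕ) (k : ℕ) : chi δ S (k : ZMod (cond S)) = psi δ S k := by
  unfold chi
  apply psi_mod
  rw [← ZMod.intCast_zmod_eq_zero_iff_dvd]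
  push_cast
  rcases Nat.eq_zero_or_pos (cond S) with h | h
  · rw [ZMod.val_natCast, h, Nat.mod_zero]; simp
  · have : NeZero (cond S) := ⟨h.ne'⟩
    rw [ZMod.natCast_val]
    simp

theorem chi_odd (δ : ℤ) (S : Finset ℕ) [NeZero (cond S)] (h : psi δ S (-1) = -1)
    (x : ZMod (cond S)) : chi δ S (-x) = - chi δ S x := by
  have : chi δ S (-x) = psi δ S (-1 * (x.val : ℤ)) := by
    unfold chi
    apply psi_mod
    rw [← ZMod.intCast_zmod_eq_zero_iff_dvd]
    push_cast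
    simp only [ZMod.natCast_val, ZMod.cast_id', id_eq]
    ring
  rw [this, psi_mul, h]
  unfold chi
  ring

/-- the relation in terms of `T` -/
theorem rel_T {n p q : ℕ} (hp : p.Prime) (hq : q.Prime) (hp2 : p ≠ 2) (hq2 : q ≠ 2) (hpq : p ≠ q)
    (hrel : ∀ (N : ℕ) [NeZero N], N.Coprime (p * q) → ∀ f : ZMod N → ℤ, (∀ x, f (-x) = -f x) →
      ((p * q : ℕ) : ℤ) * (3 * SE f 1 (n : ZMod N) 1 + n * SY f 1 (n : ZMod N) 1) =
      3 * (∑ l ∈ range (N * (p * q)), ∑ a ∈ range N,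
        (l : ℤ) * a * jacobiSym l (p * q) * f ((a * l : ℕ)) +
      ∑ l ∈ range (N * p), ∑ a ∈ range (N * q),
        (l : ℤ) * a * jacobiSym l p * jacobiSym a q * f ((a * l : ℕ))))
    {δ : ℤ} {S : Finset ℕ} (hS : ∀ l ∈ S, l.Prime) (hpS : p ∉ S) (hqS : q ∉ S)
    (hodd : psi δ S (-1) = -1) :
    ((p * q : ℕ) : ℤ) * (3 * SEr δ S n + n * SYr δ S n) =
      3 * (T δ S * T δ (insert p (insert q S)) + T δ (insert p S) * T δ (insert q S)) := by
  have hpos : 0 < cond S := cond_pos (fun b hb => (hS b hb).pos)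
  have hne : NeZero (cond S) := ⟨hpos.ne'⟩
  have hpn : NeZero p := ⟨hp.ne_zero⟩
  have hqn : NeZero q := ⟨hq.ne_zero⟩
  have hcop1 : ∀ r : ℕ, r.Prime → r ≠ 2 → r ∉ S → (cond S).Coprime r := by
    intro r hr hr2 hrS
    unfold cond
    apply Nat.Coprime.prod_left
    intro b hb
    unfold cb
    split_ifs with h
    · have : Nat.Coprime 2 r := (Nat.coprime_primes Nat.prime_two hr).mpr (fun h => hr2 h.symm)
      exact Nat.Coprime.pow_left 3 this
    · exact (Nat.coprime_primes (hS b hb) hr).mpr (fun h => hrS (h ▸ hb))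
  have hcop : (cond S).Coprime (p * q) :=
    Nat.Coprime.mul_right (hcop1 p hp hp2 hpS) (hcop1 q hq hq2 hqS)
  have h := hrel (cond S) hcop (chi δ S) (chi_odd δ S hodd)
  rw [SEr_eq, SYr_eq] at h
  rw [h]
  have hpq' : p ∉ insert q S := by
    rw [Finset.mem_insert, not_or]; exact ⟨hpq, hpS⟩
  have cp : cb p = p := by unfold cb; rw [if_neg hp2]
  have cq : cb q = q := by unfold cb; rw [if_neg hq2]
  have sp : ∀ a : ℤ, sval δ p a = jacobiSym a p := fun a => by unfold sval; rw [if_neg hp2]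
  have sq : ∀ a : ℤ, sval δ q a = jacobiSym a q := fun a => by unfold sval; rw [if_neg hq2]
  have hchi : ∀ a l : ℕ, chi δ S ((a * l : ℕ) : ZMod (cond S)) = psi δ S a * psi δ S l := by
    intro a l
    rw [chi_nat]
    push_cast
    exact psi_mul δ S a l
  congr 2
  · have c1 : cond (insert p (insert q S)) = cond S * (p * q) := by
      rw [cond_insert hpq', cond_insert hqS, cp, cq]; ring
    unfold T
    rw [c1, Finset.sum_mul_sum, Finset.sum_comm]
    apply Finset.sum_congr rfl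
    intro a _
    apply Finset.sum_congr rfl
    intro l _
    rw [hchi, psi_insert δ hpq', psi_insert δ hqS, sp, sq, jacobiSym.mul_right]
    ring
  · have c1 : cond (insert p S) = cond S * p := by
      rw [cond_insert hpS, cp]; ring
    have c2 : cond (insert q S) = cond S * q := by
      rw [cond_insert hqS, cq]; ring
    unfold T
    rw [c1, c2, Finset.sum_mul_sum]
    apply Finset.sum_congr rfl
    intro a _
    apply Finset.sum_congr rfl
    intro l _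
    rw [hchi, psi_insert δ hpS, psi_insert δ hqS, sp, sq]
    ring

end Pool.Agent.N367.LE
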