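import Pool.Agent.N367.LE.Bit1

/-! All bit congruences. -/

namespace Pool.Agent.N367.LE

open H419R2 Pool.Agent.N911 Finset

/-- label to prime -/
def lab (p q : ℕ) (a : ℕ) : ℕ := if a = 0 then p else if a = 1 then q else a

/-- symbols of a prime -/
def eOf (p : ℕ) (l : ℕ) : Bool := decide (jacobiSym l p = -1)

theorem P8_prime {l : ℕ} (h : l ∈ P8) : l.Prime := by
  unfold P8 at h
  simp only [Finset.mem_insert, Finset.mem_singleton] at h
  rcases h with h | h | h | h | h | h | h | h <;> subst h <;> norm_num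

theorem jac_two_p {p : ℕ} (hp : p.Prime) (hp4 : p % 4 = 1) : ZMod.χ₈ ((p : ℤ) : ZMod 8) =
    jacobiSym 2 p := by
  have h1 : Odd p := hp.odd_of_ne_two (by rintro rfl; omega)
  rw [jacobiSym.at_two h1]
  push_cast
  rfl

theorem jac_two_p' {p : ℕ} (hp : p.Prime) (hp4 : p % 4 = 1) : ZMod.χ₈' ((p : ℤ) : ZMod 8) =
    jacobiSym 2 p := by
  rw [← jac_two_p hp hp4]
  have : p % 8 = 1 ∨ p % 8 = 5 := by omega
  have e : ((p : ℤ) : ZMod 8) = ((p % 8 : ℕ) : ZMod 8) := by
    rw [ZMod.natCast_mod]; push_cast; rfl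
  rw [e]
  rcases this with h | h <;> rw [h] <;> decide

/-- the component `b` at `p` is the symbol of `b` modulo `p` -/
theorem sval_at {δ : ℤ} (hδ : δ = 8 ∨ δ = -8) {p b : ℕ} (hp : p.Prime) (hp4 : p % 4 = 1)
    (hb : b.Prime) : sval δ b p = jacobiSym b p := by
  unfold sval
  by_cases h2 : b = 2
  · subst h2
    rw [if_pos rfl]
    rcases hδ with h | h
    · rw [if_pos h]; exact jac_two_p hp hp4
    · rw [if_neg (by rw [h]; norm_num)]; exact jac_two_p' hp hp4
  · rw [if_neg h2]
    exact jacobiSym.quadratic_reciprocity_one_mod_four hp4 (hb.odd_of_ne_two h2)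

theorem sum_filter_insert (f : ℕ → Bool) {S : Finset ℕ} {a : ℕ} (ha : f a = false) :
    ((insert a S).filter (fun b => f b = true)) = S.filter (fun b => f b = true) := by
  ext x
  simp only [Finset.mem_filter, Finset.mem_insert]
  constructor
  · rintro ⟨h1 | h1, h2⟩
    · subst h1; rw [ha] at h2; exact absurd h2 (by simp)
    · exact ⟨h1, h2⟩
  · rintro ⟨h1, h2⟩
    exact ⟨Or.inr h1, h2⟩

theorem oddB_insert (sg : ℕ → Bool) {S : Finset ℕ} {a : ℕ} (ha : sg a = false) :
    oddB sg (insert a S) ↔ oddB sg S := by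
  unfold oddB
  rw [sum_filter_insert sg ha]

theorem sgL_prime (δ : ℤ) {b : ℕ} (hb : b.Prime) :
    sgL δ b = decide (if b = 2 then δ = -8 else b % 4 = 3) := by
  have := hb.two_le
  unfold sgL
  by_cases h2 : b = 2
  · subst h2; simp
  · have h : ¬ (b = 0 ∨ b = 1) := by omega
    simp [h, h2]

theorem psi_neg_one {δ : ℤ} (hδ : δ = 8 ∨ δ = -8) {S : Finset ℕ} (hS : ∀ l ∈ S, l.Prime)
    (h : oddB (sgL δ) S) : psi δ S (-1) = -1 := by
  have h1 : ∀ b ∈ S, sval δ b (-1) = (-1) ^ (if sgL δ b = true then 1 else 0) := by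
    intro b hb
    rw [sval_neg_one δ hδ (hS b hb), sgL_prime δ (hS b hb)]
    simp only [decide_eq_true_eq]
    by_cases hc : (if b = 2 then δ = -8 else b % 4 = 3)
    · simp only [if_pos hc, pow_one]
    · simp only [if_neg hc, pow_zero]
  unfold psi
  rw [Finset.prod_congr rfl h1, Finset.prod_pow_eq_pow_sum]
  have h2 : ∑ i ∈ S, (if sgL δ i = true then 1 else 0) = (S.filter (fun b => sgL δ b = true)).card := by
    rw [Finset.card_filter]
  rw [h2]
  unfold oddB at h
  exact (Nat.odd_iff.mpr h).neg_one_pow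

section

variable {n p q : ℕ} (hp : p.Prime) (hq : q.Prime) (hpq : p ≠ q) (hp4 : p % 4 = 1) (hq4 : q % 4 = 1)
  (hsym : jacobiSym p q = -1)

include hp hq hpq hp4 hq4 hsym in
theorem symbols {δ : ℤ} (hδ : δ = 8 ∨ δ = -8) {S : Finset ℕ} (hS : ∀ l ∈ S, l.Prime)
    (hpS : p ∉ S) (hqS : q ∉ S) (hin : ∀ l ∈ S, jacobiSym l q = - jacobiSym l p)
    (hne : ∀ l ∈ S, jacobiSym l p ≠ 0) {A : Finset ℕ} (hA : A ⊆ insert 0 (insert 1 S)) :
    Set.InjOn (lab p q) A ∧ (∀ a ∈ A, (lab p q a).Prime) ∧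
    (∀ b ∈ A, ∀ l ∈ A, b ≠ l → (sbL δ (eOf p) b l = true ↔ sval δ (lab p q b) (lab p q l) = -1)) ∧
    (∀ b ∈ A, (sgL δ b = true ↔ sval δ (lab p q b) (-1) = -1)) := by
  have hp2 : p ≠ 2 := by rintro rfl; omega
  have hq2 : q ≠ 2 := by rintro rfl; omega
  have hsym' : jacobiSym q p = -1 := by
    rw [← jacobiSym.quadratic_reciprocity_one_mod_four hp4 (hq.odd_of_ne_two hq2)]
    exact hsym
  have hmem : ∀ a ∈ A, a = 0 ∨ a = 1 ∨ (a ∈ S ∧ 2 ≤ a) := by
    intro a ha
    have := hA ha
    simp only [Finset.mem_insert] at this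
    rcases this with h | h | h
    · exact Or.inl h
    · exact Or.inr (Or.inl h)
    · exact Or.inr (Or.inr ⟨h, (hS a h).two_le⟩)
  have l0 : lab p q 0 = p := by simp [lab]
  have l1 : lab p q 1 = q := by simp [lab]
  have l2 : ∀ a, 2 ≤ a → lab p q a = a := by
    intro a ha
    unfold lab
    rw [if_neg (by omega), if_neg (by omega)]
  have tri : ∀ l ∈ S, jacobiSym l p = 1 ∨ jacobiSym l p = -1 := by
    intro l hl
    rcases jacobiSym.trichotomy (l : ℤ) p with h | h | h
    · exact absurd h (hne l hl)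
    · exact Or.inl h
    · exact Or.inr h
  refine ⟨?_, ?_, ?_, ?_⟩
  · intro a ha b hb hab
    rcases hmem a ha with h | h | ⟨h, h'⟩ <;> rcases hmem b hb with g | g | ⟨g, g'⟩
    · rw [h, g]
    · rw [h, g, l0, l1] at hab; exact absurd hab hpq
    · rw [h, l0, l2 b g'] at hab; exact absurd (hab ▸ g) hpS
    · rw [h, g, l0, l1] at hab; exact absurd hab.symm hpq
    · rw [h, g]
    · rw [h, l1, l2 b g'] at hab; exact absurd (hab ▸ g) hqS
    · rw [g, l0, l2 a h'] at hab; exact absurd (hab ▸ h) hpS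
    · rw [g, l1, l2 a h'] at hab; exact absurd (hab ▸ h) hqS
    · rw [l2 a h', l2 b g'] at hab; exact hab
  · intro a ha
    rcases hmem a ha with h | h | ⟨h, h'⟩
    · rw [h, l0]; exact hp
    · rw [h, l1]; exact hq
    · rw [l2 a h']; exact hS a h
  · intro b hb l hl hbl
    rcases hmem b hb with h | h | ⟨h, h'⟩
    · subst h
      rw [l0]
      have hv : ∀ x : ℤ, sval δ p x = jacobiSym x p := fun x => by unfold sval; rw [if_neg hp2]
      rw [hv]
      rcases hmem l hl with g | g | ⟨g, g'⟩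
      · exact absurd g.symm hbl
      · subst g
        rw [l1, hsym']
        simp [sbL]
      · rw [l2 l g']
        unfold sbL eOf
        rw [if_pos rfl, if_neg (by omega), decide_eq_true_eq]
    · subst h
      rw [l1]
      have hv : ∀ x : ℤ, sval δ q x = jacobiSym x q := fun x => by unfold sval; rw [if_neg hq2]
      rw [hv]
      rcases hmem l hl with g | g | ⟨g, g'⟩
      · subst g
        rw [l0, hsym]
        simp [sbL]
      · exact absurd g.symm hbl
      · rw [l2 l g', hin l g]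
        unfold sbL eOf
        rw [if_neg one_ne_zero, if_pos rfl, if_neg (by omega)]
        rcases tri l g with t | t <;> rw [t] <;> simp
    · rw [l2 b h']
      unfold sbL eOf
      rw [if_neg (by omega), if_neg (by omega)]
      rcases hmem l hl with g | g | ⟨g, g'⟩
      · subst g
        rw [l0, if_pos rfl, sval_at hδ hp hp4 (hS b h), decide_eq_true_eq]
      · subst g
        rw [l1, if_neg one_ne_zero, if_pos rfl, sval_at hδ hq hq4 (hS b h), hin b h]
        rcases tri b h with t | t <;> rw [t] <;> simp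
      · rw [l2 l g', if_neg (by omega), if_neg (by omega), decide_eq_true_eq]
  · intro b hb
    rcases hmem b hb with h | h | ⟨h, h'⟩
    · subst h
      rw [l0, sval_neg_one δ hδ hp]
      simp [sgL, hp4, hp2]
    · subst h
      rw [l1, sval_neg_one δ hδ hq]
      simp [sgL, hq4, hq2]
    · rw [l2 b h', sval_neg_one δ hδ (hS b h), sgL_prime δ (hS b h), decide_eq_true_eq]
      by_cases h2 : b = 2
      · subst h2
        by_cases h3 : δ = -8 <;> simp [h3]
      · by_cases h3 : b % 4 = 3 <;> simp [h3, h2]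

end

theorem allbit_gen (hPAR : S_PAR) {n p q : ℕ} (hn : n % 2 = 1) (hp : p.Prime) (hq : q.Prime)
    (hpq : p ≠ q) (hp4 : p % 4 = 1) (hq4 : q % 4 = 1) (hD : n ^ 2 + 4 = p * q)
    (hsym : jacobiSym p q = -1)
    (hrel : ∀ (N : ℕ) [NeZero N], N.Coprime (p * q) → ∀ f : ZMod N → ℤ, (∀ x, f (-x) = -f x) →
      ((p * q : ℕ) : ℤ) * (3 * SE f 1 (n : ZMod N) 1 + n * SY f 1 (n : ZMod N) 1) =
      3 * (∑ l ∈ range (N * (p * q)), ∑ a ∈ range N,
        (l : ℤ) * a * jacobiSym l (p * q) * f ((a * l : ℕ)) +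
      ∑ l ∈ range (N * p), ∑ a ∈ range (N * q),
        (l : ℤ) * a * jacobiSym l p * jacobiSym a q * f ((a * l : ℕ)))) :
    ∀ (δ : ℤ) (S : Finset ℕ), (δ = 8 ∨ δ = -8) → (∀ l ∈ S, l.Prime) →
      (∀ l ∈ S, l ≠ 2 → jacobiSym ((n : ℤ) ^ 2 + 4) l = -1) → oddB (sgL δ) S →
      BitRel n (eOf p) δ S := by
  intro δ S hδ hS hin hodd
  have hp2 : p ≠ 2 := by rintro rfl; omega
  have hq2 : q ≠ 2 := by rintro rfl; omega
  have hDz : ((n : ℤ) ^ 2 + 4) = (p : ℤ) * q := by exact_mod_cast hD
  have hDmod : (p * q) % 8 = 5 := by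
    rw [← hD]
    have : n % 8 = 1 ∨ n % 8 = 3 ∨ n % 8 = 5 ∨ n % 8 = 7 := by omega
    rcases this with h | h | h | h <;> simp [Nat.add_mod, Nat.pow_mod, h]
  have hDodd : Odd (p * q) := Nat.odd_iff.mpr (by omega)
  have hpn : NeZero p := ⟨hp.ne_zero⟩
  have hqn : NeZero q := ⟨hq.ne_zero⟩
  -- the product of the symbols
  have hprod : ∀ l ∈ S, jacobiSym l p * jacobiSym l q = -1 := by
    intro l hl
    rw [← jacobiSym.mul_right]
    by_cases h2 : l = 2
    · subst h2
      have := jacobiSym.at_two hDodd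
      push_cast
      rw [this, ZMod.χ₈_nat_eq_if_mod_eight]
      rw [if_neg (by omega), if_neg (by omega)]
    · have h1 := hin l hl h2
      rw [hDz] at h1
      have h3 := jacobiSym.quadratic_reciprocity_one_mod_four (a := p * q) (b := l) (by omega)
        ((hS l hl).odd_of_ne_two h2)
      push_cast at h3
      rw [← h3]
      exact h1
  have hne : ∀ l ∈ S, jacobiSym l p ≠ 0 := by
    intro l hl h
    have := hprod l hl
    rw [h, zero_mul] at this
    norm_num at this
  have hneq : ∀ l ∈ S, jacobiSym l q = - jacobiSym l p := by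
    intro l hl
    have h1 := hprod l hl
    rcases jacobiSym.trichotomy (l : ℤ) p with h | h | h
    · exact absurd h (hne l hl)
    · rw [h] at h1 ⊢; linarith
    · rw [h] at h1 ⊢; linarith
  have hpS : p ∉ S := by
    intro h
    apply hne p h
    rw [jacobiSym.eq_zero_iff]
    refine ⟨hp.ne_zero, ?_⟩
    simp [hp.one_lt.ne']
  have hqS : q ∉ S := by
    intro h
    have h1 := hprod q h
    have : jacobiSym q q = 0 := by
      rw [jacobiSym.eq_zero_iff]
      refine ⟨hq.ne_zero, ?_⟩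
      simp [hq.one_lt.ne']
    rw [this, mul_zero] at h1
    norm_num at h1
  have h0S : (0 : ℕ) ∉ S := fun h => (hS 0 h).ne_zero rfl
  have h1S : (1 : ℕ) ∉ S := fun h => (hS 1 h).one_lt.ne rfl
  have hsg0 : sgL δ 0 = false := by simp [sgL]
  have hsg1 : sgL δ 1 = false := by simp [sgL]
  have hrT := rel_T hp hq hp2 hq2 hpq hrel hS hpS hqS (psi_neg_one hδ hS hodd)
  have hcardS : 1 ≤ S.card := by
    rw [Nat.one_le_iff_ne_zero]
    intro h
    rw [Finset.card_eq_zero] at h
    rw [h] at hodd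
    simp [oddB] at hodd
  -- images
  have imS : S.image (lab p q) = S := by
    ext x
    simp only [Finset.mem_image]
    constructor
    · rintro ⟨a, ha, rfl⟩
      have := (hS a ha).two_le
      unfold lab
      rw [if_neg (by omega), if_neg (by omega)]
      exact ha
    · intro hx
      have := (hS x hx).two_le
      refine ⟨x, hx, ?_⟩
      unfold lab
      rw [if_neg (by omega), if_neg (by omega)]
  have im0 : (insert 0 S).image (lab p q) = insert p S := by
    rw [Finset.image_insert, imS]; simp [lab]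
  have im1 : (insert 1 S).image (lab p q) = insert q S := by
    rw [Finset.image_insert, imS]; simp [lab]
  have im01 : (insert 0 (insert 1 S)).image (lab p q) = insert p (insert q S) := by
    rw [Finset.image_insert, im1]; simp [lab]
  have par : ∀ A : Finset ℕ, A ⊆ insert 0 (insert 1 S) → oddB (sgL δ) A →
      (c2 (A.image (lab p q)) * 2 ^ A.card) ∣ T δ (A.image (lab p q)) -
        c2 (A.image (lab p q)) * 2 ^ (A.card - 1) * (U (sbL δ (eOf p)) (sgL δ) A : ℤ) := by
    intro A hA hoA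
    obtain ⟨a1, a2, a3, a4⟩ := symbols hp hq hpq hp4 hq4 hsym hδ hS hpS hqS hneq hne hA
    exact hPAR δ _ _ (lab p q) A hδ a1 a2 a3 a4 hoA
  have o0 : oddB (sgL δ) (insert 0 S) := (oddB_insert _ hsg0).mpr hodd
  have o1 : oddB (sgL δ) (insert 1 S) := (oddB_insert _ hsg1).mpr hodd
  have o01 : oddB (sgL δ) (insert 0 (insert 1 S)) := (oddB_insert _ hsg0).mpr o1
  have h0S1 : (0 : ℕ) ∉ insert 1 S := by
    rw [Finset.mem_insert, not_or]; exact ⟨by norm_num, h0S⟩
  have p1 := par S ((Finset.subset_insert _ _).trans (Finset.subset_insert _ _)) hodd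
  have p2 := par (insert 0 (insert 1 S)) (Finset.Subset.refl _) o01
  have p3 := par (insert 0 S) (Finset.insert_subset_insert _ (Finset.subset_insert _ _)) o0
  have p4 := par (insert 1 S) (Finset.subset_insert _ _) o1
  rw [imS] at p1
  rw [im01] at p2
  rw [im0] at p3
  rw [im1] at p4
  have c2p : c2 (insert p S) = c2 S := by
    unfold c2
    have : (2 ∈ insert p S) ↔ 2 ∈ S := by
      rw [Finset.mem_insert]
      exact ⟨fun h => h.resolve_left (fun h => hp2 h.symm), Or.inr⟩
    simp only [this]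
  have c2q : c2 (insert q S) = c2 S := by
    unfold c2
    have : (2 ∈ insert q S) ↔ 2 ∈ S := by
      rw [Finset.mem_insert]
      exact ⟨fun h => h.resolve_left (fun h => hq2 h.symm), Or.inr⟩
    simp only [this]
  have c2pq : c2 (insert p (insert q S)) = c2 S := by
    unfold c2
    have : (2 ∈ insert p (insert q S)) ↔ 2 ∈ S := by
      rw [Finset.mem_insert, Finset.mem_insert]
      exact ⟨fun h => (h.resolve_left (fun h => hp2 h.symm)).resolve_left (fun h => hq2 h.symm),
        fun h => Or.inr (Or.inr h)⟩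
    simp only [this]
  rw [c2pq, Finset.card_insert_of_notMem h0S1, Finset.card_insert_of_notMem h1S] at p2
  rw [c2p, Finset.card_insert_of_notMem h0S] at p3
  rw [c2q, Finset.card_insert_of_notMem h1S] at p4
  have hc : c2 S = 1 ∨ c2 S = 8 := by unfold c2; split_ifs <;> simp
  have hDodd' : ((p * q : ℕ) : ℤ) % 2 = 1 := by omega
  have := arith_bit (D := ((p * q : ℕ) : ℤ)) (R := 3 * SEr δ S n + n * SYr δ S n) (c := c2 S)
    (k := S.card) hcardS hDodd' hc hrT p1 p2 p3 p4
  unfold BitRel bit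
  push_cast
  exact this

theorem allbit (hPAR : S_PAR) {n p q : ℕ} (hn : n % 2 = 1) (hp : p.Prime) (hq : q.Prime)
    (hpq : p ≠ q) (hp4 : p % 4 = 1) (hq4 : q % 4 = 1) (hD : n ^ 2 + 4 = p * q)
    (hsym : jacobiSym p q = -1)
    (hrel : ∀ (N : ℕ) [NeZero N], N.Coprime (p * q) → ∀ f : ZMod N → ℤ, (∀ x, f (-x) = -f x) →
      ((p * q : ℕ) : ℤ) * (3 * SE f 1 (n : ZMod N) 1 + n * SY f 1 (n : ZMod N) 1) =
      3 * (∑ l ∈ range (N * (p * q)), ∑ a ∈ range N,
        (l : ℤ) * a * jacobiSym l (p * q) * f ((a * l : ℕ)) +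
      ∑ l ∈ range (N * p), ∑ a ∈ range (N * q),
        (l : ℤ) * a * jacobiSym l p * jacobiSym a q * f ((a * l : ℕ)))) :
    AllBit n (eOf p) := fun δ S hδ hSP hin hodd =>
  allbit_gen hPAR hn hp hq hpq hp4 hq4 hD hsym hrel δ S hδ (fun _ hl => P8_prime (hSP hl)) hin hodd

end Pool.Agent.N367.LE
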