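import Pool.Agent.N911.A5

/-! Class number two for `D = n ^ 2 + 4`: definitions and statements of the parts. -/

namespace Pool.Agent.N367.LE

open H419R2 Pool.Agent.N911 Finset Filter Topology

/-! ### Characters with prime components; the component `2` has conductor eight, type `8` or `-8` -/

/-- value of the component `b` (a prime) at `a`; for `b = 2` the character of type `δ = 8, -8` -/
def sval (δ : ℤ) (b : ℕ) (a : ℤ) : ℤ :=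
  if b = 2 then (if δ = 8 then ZMod.χ₈ (a : ZMod 8) else ZMod.χ₈' (a : ZMod 8)) else jacobiSym a b

/-- product of the components in `A` -/
def psi (δ : ℤ) (A : Finset ℕ) (a : ℤ) : ℤ := ∏ b ∈ A, sval δ b a

/-- conductor of a component -/
def cb (b : ℕ) : ℕ := if b = 2 then 8 else b

/-- conductor -/
def cond (A : Finset ℕ) : ℕ := ∏ b ∈ A, cb b

/-- `2`-part of the conductor -/
def c2 (A : Finset ℕ) : ℤ := if 2 ∈ A then 8 else 1

/-- the sum `∑ a ψ(a)` -/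
def T (δ : ℤ) (A : Finset ℕ) : ℤ := ∑ a ∈ range (cond A), (a : ℤ) * psi δ A a

/-- the character on residues -/
def chi (δ : ℤ) (A : Finset ℕ) (x : ZMod (cond A)) : ℤ := psi δ A (x.val : ℤ)

/-! ### The parity of `T`, in terms of symbols

`sb b l`: the component `b` has value `-1` at the prime `l`; `sg b`: the component `b` is odd. -/

/-- the product of the components in `B` is odd -/
def oddB (sg : ℕ → Bool) (B : Finset ℕ) : Prop := (B.filter (fun b => sg b = true)).card % 2 = 1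

/-- the product of the components in `B` has value `-1` at `l` -/
def neB (sb : ℕ → ℕ → Bool) (B : Finset ℕ) (l : ℕ) : Prop :=
  (B.filter (fun b => sb b l = true)).card % 2 = 1

instance (sg : ℕ → Bool) (B : Finset ℕ) : Decidable (oddB sg B) := by unfold oddB; infer_instance

instance (sb : ℕ → ℕ → Bool) (B : Finset ℕ) (l : ℕ) : Decidable (neB sb B l) := by
  unfold neB; infer_instance

/-- the condition on the pair `B ⊂ A` -/
def okB (sb : ℕ → ℕ → Bool) (sg : ℕ → Bool) (A B : Finset ℕ) : Prop :=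
  oddB sg B ∧ ∀ l ∈ A \ B, neB sb B l

instance (sb : ℕ → ℕ → Bool) (sg : ℕ → Bool) (A B : Finset ℕ) : Decidable (okB sb sg A B) := by
  unfold okB; infer_instance

/-- parity of `T_A / (c2 A * 2 ^ (card A - 1))`: `0` or `1` -/
def U (sb : ℕ → ℕ → Bool) (sg : ℕ → Bool) : Finset ℕ → ℕ :=
  Finset.strongInduction (fun A ih => ((if ∀ b ∈ A, sg b = true then 1 else 0) +
    ∑ B ∈ A.ssubsets.attach, if okB sb sg A B.1 then ih B.1 (Finset.mem_ssubsets.mp B.2) else 0) % 2)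

theorem U_eq (sb : ℕ → ℕ → Bool) (sg : ℕ → Bool) (A : Finset ℕ) :
    U sb sg A = ((if ∀ b ∈ A, sg b = true then 1 else 0) +
      ∑ B ∈ A.ssubsets, if okB sb sg A B then U sb sg B else 0) % 2 := by
  rw [U, Finset.strongInduction_eq]
  rw [← Finset.sum_attach A.ssubsets (fun B => if okB sb sg A B then
    Finset.strongInduction (fun A ih => ((if ∀ b ∈ A, sg b = true then 1 else 0) +
    ∑ B ∈ A.ssubsets.attach, if okB sb sg A B.1 then ih B.1 (Finset.mem_ssubsets.mp B.2)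
      else 0) % 2) B else 0)]

/-- parity of the sums `T`; labels `a` stand for primes `pr a` -/
def S_PAR : Prop := ∀ (δ : ℤ) (sb : ℕ → ℕ → Bool) (sg : ℕ → Bool) (pr : ℕ → ℕ) (A : Finset ℕ),
  (δ = 8 ∨ δ = -8) → Set.InjOn pr A → (∀ a ∈ A, (pr a).Prime) →
  (∀ b ∈ A, ∀ l ∈ A, b ≠ l → (sb b l = true ↔ sval δ (pr b) (pr l) = -1)) →
  (∀ b ∈ A, (sg b = true ↔ sval δ (pr b) (-1) = -1)) →
  oddB sg A →
  (c2 (A.image pr) * 2 ^ A.card) ∣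
    T δ (A.image pr) - c2 (A.image pr) * 2 ^ (A.card - 1) * (U sb sg A : ℤ)

/-! ### The symbols for `D = p q`; label `0` is `p`, label `1` is `q`

`e l` says that `l` (an odd prime or `2`) is a non-residue mod `p`; then it is a residue mod `q`. -/

/-- symbols -/
def sbL (δ : ℤ) (e : ℕ → Bool) (b l : ℕ) : Bool :=
  if b = 0 then (if l = 1 then true else e l)
  else if b = 1 then (if l = 0 then true else !e l)
  else if l = 0 then e b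
  else if l = 1 then !e b
  else decide (sval δ b l = -1)

/-- signs -/
def sgL (δ : ℤ) (b : ℕ) : Bool :=
  if b = 0 ∨ b = 1 then false else if b = 2 then decide (δ = -8) else decide (b % 4 = 3)

/-- the bit (to be read modulo two) -/
def bit (δ : ℤ) (e : ℕ → Bool) (S : Finset ℕ) : ℕ :=
  U (sbL δ e) (sgL δ) S * U (sbL δ e) (sgL δ) (insert 0 (insert 1 S)) +
    U (sbL δ e) (sgL δ) (insert 0 S) * U (sbL δ e) (sgL δ) (insert 1 S)

/-- first sum of the form `x ^ 2 + n x y - y ^ 2` -/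
def SEr (δ : ℤ) (S : Finset ℕ) (n : ℕ) : ℤ :=
  ∑ x ∈ range (cond S), ∑ y ∈ range (cond S), psi δ S ((x : ℤ) ^ 2 + n * (x * y) - (y : ℤ) ^ 2) *
    (if x = 0 ∨ y = 0 then 0 else (2 * (x : ℤ) - cond S) * (2 * (y : ℤ) - cond S))

/-- second sum of the form `x ^ 2 + n x y - y ^ 2` -/
def SYr (δ : ℤ) (S : Finset ℕ) (n : ℕ) : ℤ :=
  ∑ x ∈ range (cond S), ∑ y ∈ range (cond S), psi δ S ((x : ℤ) ^ 2 + n * (x * y) - (y : ℤ) ^ 2) *
    (6 * (y : ℤ) ^ 2 - 6 * y * cond S + (cond S : ℤ) ^ 2)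

/-- the congruence for the set `S` of components -/
def BitRel (n : ℕ) (e : ℕ → Bool) (δ : ℤ) (S : Finset ℕ) : Prop :=
  (c2 S ^ 2 * 2 ^ (2 * S.card + 1)) ∣
    3 * SEr δ S n + n * SYr δ S n - c2 S ^ 2 * 2 ^ (2 * S.card) * (bit δ e S : ℤ)

/-- the primes used -/
def P8 : Finset ℕ := {2, 3, 5, 7, 11, 13, 17, 19}

/-- all congruences for inert components -/
def AllBit (n : ℕ) (e : ℕ → Bool) : Prop := ∀ (δ : ℤ) (S : Finset ℕ), (δ = 8 ∨ δ = -8) →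
  S ⊆ P8 → (∀ l ∈ S, l ≠ 2 → jacobiSym ((n : ℤ) ^ 2 + 4) l = -1) → oddB (sgL δ) S → BitRel n e δ S

/-- search, inert branch -/
def S_SI : Prop := ∀ (n : ℕ) (e : ℕ → Bool), n % 2 = 1 →
  (∀ l ∈ P8, l ≠ 2 → jacobiSym ((n : ℤ) ^ 2 + 4) l = -1) → AllBit n e → False

/-- search, ramified branch -/
def S_SR : Prop := ∀ (n : ℕ) (e : ℕ → Bool) (p : ℕ), n % 2 = 1 → (p = 5 ∨ p = 13 ∨ p = 17) →
  p ∣ n ^ 2 + 4 → (∀ l ∈ P8, l ≠ 2 → l ≠ p → jacobiSym ((n : ℤ) ^ 2 + 4) l = -1) →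
  (∀ l ∈ P8, l ≠ p → (e l = true ↔ jacobiSym l p = -1)) → AllBit n e → False

/-! ### Ideals -/

/-- number of principal ideals of norm `k` -/
noncomputable def pcnt (n : ℕ) [IsDedekindDomain (QA 1 (n : ℤ))] (k : ℕ) : ℕ :=
  {I : Ideal (QA 1 (n : ℤ)) | I.IsPrincipal ∧ Ideal.absNorm I = k}.ncard

/-- coefficients of `L(s, χ_p) L(s, χ_q)` -/
def gg (p q k : ℕ) : ℤ := ∑ d ∈ k.divisors, jacobiSym d p * jacobiSym ((k / d : ℕ) : ℤ) q

/-- class number two, as used here -/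
structure H2 (n : ℕ) : Prop where
  ded : IsDedekindDomain (QA 1 (n : ℤ))
  np : ∃ I : Ideal (QA 1 (n : ℤ)), I ≠ ⊥ ∧ ¬ I.IsPrincipal
  mp : ∀ I J : Ideal (QA 1 (n : ℤ)), I ≠ ⊥ → J ≠ ⊥ → ¬ I.IsPrincipal → ¬ J.IsPrincipal →
    (I * J).IsPrincipal

/-- from the field to the order -/
def S_G0 : Prop := ∀ n D : ℕ, n % 2 = 1 → D = n ^ 2 + 4 → Squarefree D →
  ∀ (K : Type) [Field K] [NumberField K],
    Module.finrank ℚ K = 2 → (∃ x : K, x ^ 2 = (D : K)) → NumberField.classNumber K = 2 → H2 n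

/-- units: proper ambiguous ideals are not principal -/
def S_GU : Prop := ∀ n : ℕ, n % 2 = 1 → Squarefree (n ^ 2 + 4) → IsDomain (QA 1 (n : ℤ)) →
  ∀ d : ℕ, d ∣ n ^ 2 + 4 → 1 < d → d < n ^ 2 + 4 →
  ∀ I : Ideal (QA 1 (n : ℤ)), I ^ 2 = Ideal.span {(d : QA 1 (n : ℤ))} → ¬ I.IsPrincipal

/-- the discriminant is not a prime -/
def S_GA : Prop := ∀ n : ℕ, n % 2 = 1 → Squarefree (n ^ 2 + 4) → H2 n → ¬ (n ^ 2 + 4).Prime

/-- prime ideals of degree one -/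
def S_GR : Prop := ∀ n : ℕ, n % 2 = 1 → ∀ [IsDedekindDomain (QA 1 (n : ℤ))], ∀ r : ℕ, r.Prime →
  r ≠ 2 →
  (jacobiSym ((n : ℤ) ^ 2 + 4) r = 1 → ∃ I : Ideal (QA 1 (n : ℤ)), Ideal.absNorm I = r ∧
    ∀ c : ℕ, I ^ 2 ≠ Ideal.span {(c : QA 1 (n : ℤ))}) ∧
  (Squarefree (n ^ 2 + 4) → r ∣ n ^ 2 + 4 → ∃ I : Ideal (QA 1 (n : ℤ)), Ideal.absNorm I = r ∧
    I ^ 2 = Ideal.span {(r : QA 1 (n : ℤ))})

/-- two prime factors -/
def S_G1 : Prop := ∀ n : ℕ, n % 2 = 1 → Squarefree (n ^ 2 + 4) → H2 n →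
  ∃ p q : ℕ, p.Prime ∧ q.Prime ∧ p < q ∧ p % 4 = 1 ∧ q % 4 = 1 ∧ n ^ 2 + 4 = p * q

/-- genus character -/
def S_G2 : Prop := ∀ n p q : ℕ, n % 2 = 1 → p.Prime → q.Prime → p ≠ q → p % 4 = 1 → q % 4 = 1 →
  n ^ 2 + 4 = p * q → H2 n → ∀ [IsDedekindDomain (QA 1 (n : ℤ))], ∀ I : Ideal (QA 1 (n : ℤ)), I ≠ ⊥ →
  (¬ p ∣ Ideal.absNorm I → (I.IsPrincipal ↔ jacobiSym (Ideal.absNorm I) p = 1))

/-- symbol -/
def S_G3 : Prop := ∀ n p q : ℕ, n % 2 = 1 → p.Prime → q.Prime → p ≠ q → p % 4 = 1 → q % 4 = 1 →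
  n ^ 2 + 4 = p * q → H2 n → jacobiSym p q = -1

/-- number of all ideals -/
def S_CA : Prop := ∀ n : ℕ, n % 2 = 1 → Squarefree (n ^ 2 + 4) →
  ∀ [IsDedekindDomain (QA 1 (n : ℤ))], ∀ k : ℕ, k ≠ 0 →
  (({I : Ideal (QA 1 (n : ℤ)) | Ideal.absNorm I = k}.ncard : ℕ) : ℤ) = rr (n ^ 2 + 4) k

/-- number of principal ideals -/
def S_G5 : Prop := ∀ n p q : ℕ, n % 2 = 1 → p.Prime → q.Prime → p ≠ q → p % 4 = 1 → q % 4 = 1 →
  n ^ 2 + 4 = p * q → H2 n → ∀ [IsDedekindDomain (QA 1 (n : ℤ))], ∀ k : ℕ, k ≠ 0 →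
  2 * (pcnt n k : ℤ) = rr (p * q) k + gg p q k

/-- small split primes -/
def S_G4 : Prop := ∀ n p q : ℕ, n % 2 = 1 → p.Prime → q.Prime → p ≠ q → p % 4 = 1 → q % 4 = 1 →
  n ^ 2 + 4 = p * q → H2 n → ∀ r : ℕ, r.Prime → r ≠ 2 → jacobiSym ((n : ℤ) ^ 2 + 4) r = 1 →
  4 * r ^ 2 < n ^ 2 + 4 → jacobiSym r p = -1 ∧ n ^ 2 + 4 < 4 * r ^ 4

/-! ### Analysis -/

/-- the product `L(χ χ_p) L(χ χ_q)` -/
def S_AN1 : Prop := ∀ (p q N : ℕ) [NeZero N], p.Prime → q.Prime → p ≠ q → p % 4 = 1 → q % 4 = 1 →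
  N.Coprime (p * q) → ∀ F : ZMod N → ℝ, (∀ x, F (-x) = -F x) →
  ∃ W : ℝ → ℝ, (∀ t : ℝ, 0 < t →
    HasSum (fun k : ℕ => F k * Real.exp (-(t * k)) * (gg p q k : ℝ)) (W t)) ∧
  Tendsto W (𝓝[>] 0) (𝓝 ((∑ l ∈ range (N * p), ∑ a ∈ range (N * q),
    (l : ℝ) * a * jacobiSym l p * jacobiSym a q * F ((a * l : ℕ))) / ((N * p) * (N * q))))

/-- the relation -/
def S_AN : Prop := ∀ n p q : ℕ, n % 2 = 1 → p.Prime → q.Prime → p ≠ q → p % 4 = 1 → q % 4 = 1 →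
  n ^ 2 + 4 = p * q → ∀ [IsDedekindDomain (QA 1 (n : ℤ))],
  (∀ k : ℕ, k ≠ 0 → 2 * (pcnt n k : ℤ) = rr (p * q) k + gg p q k) →
  ∀ (N : ℕ) [NeZero N], N.Coprime (p * q) → ∀ f : ZMod N → ℤ, (∀ x, f (-x) = -f x) →
  ((p * q : ℕ) : ℤ) * (3 * SE f 1 (n : ZMod N) 1 + n * SY f 1 (n : ZMod N) 1) =
    3 * (∑ l ∈ range (N * (p * q)), ∑ a ∈ range N,
        (l : ℤ) * a * jacobiSym l (p * q) * f ((a * l : ℕ)) +
      ∑ l ∈ range (N * p), ∑ a ∈ range (N * q),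
        (l : ℤ) * a * jacobiSym l p * jacobiSym a q * f ((a * l : ℕ)))

/-! ### The small cases -/

/-- small cases -/
def S_SM : Prop := ∀ n p q : ℕ, n % 2 = 1 → p.Prime → q.Prime → p < q → n ^ 2 + 4 = p * q →
  n < 722 → (∀ r : ℕ, r.Prime → r ≠ 2 → jacobiSym ((n : ℤ) ^ 2 + 4) r = 1 →
    4 * r ^ 2 < n ^ 2 + 4 → jacobiSym r p = -1 ∧ n ^ 2 + 4 < 4 * r ^ 4) →
  n = 9 ∨ n = 19 ∨ n = 23 ∨ n = 25 ∨ n = 31 ∨ n = 41 ∨ n = 43 ∨ n = 53

end Pool.Agent.N367.LE
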