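import Pool.Agent.N367.LE.Bit2

/-! Second interface of the search: primes up to `31`. -/

namespace Pool.Agent.N367.LE

open H419R2 Pool.Agent.N911 Finset

/-- the primes used -/
def P10 : Finset ℕ := {2, 3, 5, 7, 11, 13, 17, 19, 23, 29, 31}

/-- all congruences for inert components -/
def AllBit10 (n : ℕ) (e : ℕ → Bool) : Prop := ∀ (δ : ℤ) (S : Finset ℕ), (δ = 8 ∨ δ = -8) →
  S ⊆ P10 → (∀ l ∈ S, l ≠ 2 → jacobiSym ((n : ℤ) ^ 2 + 4) l = -1) → oddB (sgL δ) S → BitRel n e δ S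

/-- search, inert branch -/
def S_SI10 : Prop := ∀ (n : ℕ) (e : ℕ → Bool), n % 2 = 1 →
  (∀ l ∈ P10, l ≠ 2 → jacobiSym ((n : ℤ) ^ 2 + 4) l = -1) → AllBit10 n e → False

/-- search, ramified branch -/
def S_SR10 : Prop := ∀ (n : ℕ) (e : ℕ → Bool) (p : ℕ), n % 2 = 1 →
  (p = 5 ∨ p = 13 ∨ p = 17 ∨ p = 29) →
  p ∣ n ^ 2 + 4 → (∀ l ∈ P10, l ≠ 2 → l ≠ p → jacobiSym ((n : ℤ) ^ 2 + 4) l = -1) →
  (∀ l ∈ P10, l ≠ p → (e l = true ↔ jacobiSym l p = -1)) → AllBit10 n e → False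

/-- small cases -/
def S_SM10 : Prop := ∀ n p q : ℕ, n % 2 = 1 → p.Prime → q.Prime → p < q → n ^ 2 + 4 = p * q →
  n < 1922 → (∀ r : ℕ, r.Prime → r ≠ 2 → jacobiSym ((n : ℤ) ^ 2 + 4) r = 1 →
    4 * r ^ 2 < n ^ 2 + 4 → jacobiSym r p = -1 ∧ n ^ 2 + 4 < 4 * r ^ 4) →
  n = 9 ∨ n = 19 ∨ n = 23 ∨ n = 25 ∨ n = 31 ∨ n = 41 ∨ n = 43 ∨ n = 53

/-- the second sum -/
def S_SY : Prop := ∀ (δ : ℤ) (S : Finset ℕ) (n : ℕ), (∀ l ∈ S, l.Prime ∧ l ≠ 2) →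
  (∀ l ∈ S, jacobiSym ((n : ℤ) ^ 2 + 4) l = -1) → psi δ S (-1) = -1 →
  (2 : ℤ) ^ (2 * S.card + 1) ∣ SYr δ S n

end Pool.Agent.N367.LE
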