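import Pool.Agent.N367.LE.Fin
import Pool.Agent.N367.LE.Stm2

/-! Assembly with the second search interface. -/

namespace Pool.Agent.N367.LE

open H419R2 Pool.Agent.N911 Finset

theorem P10_prime {l : ℕ} (h : l ∈ P10) : l.Prime := by
  unfold P10 at h
  simp only [Finset.mem_insert, Finset.mem_singleton] at h
  rcases h with h | h | h | h | h | h | h | h | h | h | h <;> subst h <;> norm_num

theorem h2_allbit10 (hPAR : S_PAR) (hG3 : S_G3) {n p q : ℕ} (hn : n % 2 = 1) (hp : p.Prime)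
    (hq : q.Prime) (hpq : p ≠ q) (hp4 : p % 4 = 1) (hq4 : q % 4 = 1) (hD : n ^ 2 + 4 = p * q)
    (h : H2 n) : AllBit10 n (eOf p) := by
  have hgr := Pool.Agent.N99.LEgr.gr
  have hg2 := Pool.Agent.N433.LE.g2 hgr
  have hca := Pool.Agent.N195.LECA.ca hgr
  have hg5 := Pool.Agent.N123.LEG5.g5 hca hg2
  have han := Pool.Agent.N31.LEan.an Pool.Agent.N434.LE.an1
  haveI := h.ded
  intro δ S hδ hSP
  exact allbit_gen hPAR hn hp hq hpq hp4 hq4 hD (hG3 n p q hn hp hq hpq hp4 hq4 hD h)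
    (fun N _ hN f hf => han n p q hn hp hq hpq hp4 hq4 hD
      (fun k hk => hg5 n p q hn hp hq hpq hp4 hq4 hD h k hk) N hN f hf) δ S hδ
      (fun _ hl => P10_prime (hSP hl))

theorem ram_prime10 {n l : ℕ} (hl : l ∈ P10) (h2 : l ≠ 2) (h : l ∣ n ^ 2 + 4) :
    l = 5 ∨ l = 13 ∨ l = 17 ∨ l = 29 := by
  have key : ∀ m : ℕ, m ∣ n ^ 2 + 4 → ((n % m) ^ 2 + 4) % m = 0 := by
    intro m hm
    have : (n ^ 2 + 4) % m = ((n % m) ^ 2 + 4) % m := by
      simp [Nat.add_mod, Nat.pow_mod]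
    rw [← this]
    exact Nat.mod_eq_zero_of_dvd hm
  unfold P10 at hl
  simp only [Finset.mem_insert, Finset.mem_singleton] at hl
  have h1 := key l h
  rcases hl with g | g | g | g | g | g | g | g | g | g | g <;> subst g
  · exact absurd rfl h2
  · exfalso; have := Nat.mod_lt n (show 0 < 3 by norm_num); interval_cases (n % 3) <;> omega
  · exact Or.inl rfl
  · exfalso; have := Nat.mod_lt n (show 0 < 7 by norm_num); interval_cases (n % 7) <;> omega
  · exfalso; have := Nat.mod_lt n (show 0 < 11 by norm_num); interval_cases (n % 11) <;> omega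
  · exact Or.inr (Or.inl rfl)
  · exact Or.inr (Or.inr (Or.inl rfl))
  · exfalso; have := Nat.mod_lt n (show 0 < 19 by norm_num); interval_cases (n % 19) <;> omega
  · exfalso; have := Nat.mod_lt n (show 0 < 23 by norm_num); interval_cases (n % 23) <;> omega
  · exact Or.inr (Or.inr (Or.inr rfl))
  · exfalso; have := Nat.mod_lt n (show 0 < 31 by norm_num); interval_cases (n % 31) <;> omega

/-- large `n` is impossible -/
theorem no_large10 (hPAR : S_PAR) (hG3 : S_G3) (hSI : S_SI10) (hSR : S_SR10) {n p q : ℕ}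
    (hn : n % 2 = 1) (hp : p.Prime) (hq : q.Prime) (hpq : p ≠ q) (hp4 : p % 4 = 1)
    (hq4 : q % 4 = 1) (hD : n ^ 2 + 4 = p * q) (h : H2 n) (hlarge : 1922 ≤ n) : False := by
  have hgr := Pool.Agent.N99.LEgr.gr
  have hg2 := Pool.Agent.N433.LE.g2 hgr
  have hg4 := Pool.Agent.N704.LE.g4 hgr hg2
  have hDl : 1922 ^ 2 + 4 ≤ n ^ 2 + 4 := by
    have : 1922 ^ 2 ≤ n ^ 2 := Nat.pow_le_pow_left hlarge 2
    omega
  -- no split prime
  have hns : ∀ l ∈ P10, l ≠ 2 → jacobiSym ((n : ℤ) ^ 2 + 4) l ≠ 1 := by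
    intro l hl h2 h1
    have hl19 : l ≤ 31 := by
      unfold P10 at hl
      simp only [Finset.mem_insert, Finset.mem_singleton] at hl
      omega
    have e1 : 4 * l ^ 2 < n ^ 2 + 4 := by
      have : l ^ 2 ≤ 31 ^ 2 := Nat.pow_le_pow_left hl19 2
      omega
    have := (hg4 n p q hn hp hq hpq hp4 hq4 hD h l (P10_prime hl) h2 h1 e1).2
    have h4 : l ^ 4 ≤ 31 ^ 4 := Nat.pow_le_pow_left hl19 4
    omega
  have hcases : ∀ l ∈ P10, l ≠ 2 → jacobiSym ((n : ℤ) ^ 2 + 4) l = -1 ∨ l = p ∨ l = q := by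
    intro l hl h2
    rcases jacobiSym.trichotomy ((n : ℤ) ^ 2 + 4) l with h0 | h0 | h0
    · right
      rw [jacobiSym.eq_zero_iff] at h0
      have hlp := P10_prime hl
      have h3 : (l : ℤ) ∣ (n : ℤ) ^ 2 + 4 := by
        rcases (Nat.coprime_or_dvd_of_prime hlp ((n ^ 2 + 4))) with hc | hc
        · exfalso
          apply h0.2
          rw [Int.gcd_comm]
          have e : ((n : ℤ) ^ 2 + 4) = ((n ^ 2 + 4 : ℕ) : ℤ) := by push_cast; ring
          rw [e, Int.gcd_natCast_natCast]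
          exact hc
        · exact_mod_cast hc
      have h4 : l ∣ p * q := by rw [← hD]; exact_mod_cast h3
      rcases (Nat.Prime.dvd_mul hlp).mp h4 with g | g
      · exact Or.inl ((Nat.prime_dvd_prime_iff_eq hlp hp).mp g)
      · exact Or.inr ((Nat.prime_dvd_prime_iff_eq hlp hq).mp g)
    · exact absurd h0 (hns l hl h2)
    · exact Or.inl h0
  -- not both small
  have hnb : ¬ (p ≤ 31 ∧ q ≤ 31) := by
    rintro ⟨h1, h2⟩
    have : p * q ≤ 31 * 31 := Nat.mul_le_mul h1 h2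
    omega
  have hle : ∀ l ∈ P10, l ≤ 31 := by
    intro l hl
    unfold P10 at hl
    simp only [Finset.mem_insert, Finset.mem_singleton] at hl
    omega
  have hp2 : p ≠ 2 := by rintro rfl; omega
  have hq2 : q ≠ 2 := by rintro rfl; omega
  by_cases hpS : p ∈ P10
  · -- p ramified and small
    have hq' : q ∉ P10 := fun g => hnb ⟨hle p hpS, hle q g⟩
    refine hSR n (eOf p) p hn (ram_prime10 hpS hp2 (by rw [hD]; exact Dvd.intro _ rfl))
      (by rw [hD]; exact Dvd.intro _ rfl) ?_ ?_ (h2_allbit10 hPAR hG3 hn hp hq hpq hp4 hq4 hD h)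
    · intro l hl h2 hlp
      rcases hcases l hl h2 with g | g | g
      · exact g
      · exact absurd g hlp
      · exact absurd (g ▸ hl) hq'
    · intro l _ _
      unfold eOf
      rw [decide_eq_true_eq]
  · by_cases hqS : q ∈ P10
    · have hD' : n ^ 2 + 4 = q * p := by rw [hD]; ring
      refine hSR n (eOf q) q hn (ram_prime10 hqS hq2 (by rw [hD']; exact Dvd.intro _ rfl))
        (by rw [hD']; exact Dvd.intro _ rfl) ?_ ?_
        (h2_allbit10 hPAR hG3 hn hq hp hpq.symm hq4 hp4 hD' h)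
      · intro l hl h2 hlq
        rcases hcases l hl h2 with g | g | g
        · exact g
        · exact absurd (g ▸ hl) hpS
        · exact absurd g hlq
      · intro l _ _
        unfold eOf
        rw [decide_eq_true_eq]
    · refine hSI n (eOf p) hn ?_ (h2_allbit10 hPAR hG3 hn hp hq hpq hp4 hq4 hD h)
      intro l hl h2
      rcases hcases l hl h2 with g | g | g
      · exact g
      · exact absurd (g ▸ hl) hpS
      · exact absurd (g ▸ hl) hqS

/-- the eight values -/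
theorem eight10 (hPAR : S_PAR) (hSM : S_SM10) (hG3 : S_G3) (hSI : S_SI10) (hSR : S_SR10) {n p q : ℕ}
    (hn : n % 2 = 1) (hp : p.Prime) (hq : q.Prime) (hpq : p < q) (hp4 : p % 4 = 1)
    (hq4 : q % 4 = 1) (hD : n ^ 2 + 4 = p * q) (h : H2 n) :
    n = 9 ∨ n = 19 ∨ n = 23 ∨ n = 25 ∨ n = 31 ∨ n = 41 ∨ n = 43 ∨ n = 53 := by
  have hgr := Pool.Agent.N99.LEgr.gr
  have hg2 := Pool.Agent.N433.LE.g2 hgr
  have hg4 := Pool.Agent.N704.LE.g4 hgr hg2
  have hlt : n < 1922 := by
    by_contra hc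
    exact no_large10 hPAR hG3 hSI hSR hn hp hq hpq.ne hp4 hq4 hD h (by omega)
  exact hSM n p q hn hp hq hpq hD hlt
    (fun r hr h2 h1 h3 => hg4 n p q hn hp hq hpq.ne hp4 hq4 hD h r hr h2 h1 h3)

end Pool.Agent.N367.LE
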