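import Mathlib

/-! The sets `T` for the eight discriminants. -/

namespace Pool.Agent.N367.LE

/-- conclusion on `T` -/
def TC (D : ℕ) : Prop := ∃ T : Finset ℕ,
          (∀ r : ℕ, r ∈ T ↔
            (r.Prime ∧ (r : ℝ) < Real.sqrt (D : ℝ) / 2 ∧
              ((r = 2 ∧ (D % 2 = 0 ∨ D % 8 = 1 ∨ D % 8 = 7)) ∨
               (r ≠ 2 ∧ jacobiSym (D : ℤ) r ≠ -1)))) ∧
          1 ≤ T.card ∧ T.card ≤ 2 ∧
          ∀ r ∈ T,
            ((r = 2 ∧ (D % 8 = 1 ∨ D % 8 = 7)) ∨ (r ≠ 2 ∧ jacobiSym (D : ℤ) r = 1)) →
            Real.sqrt (D : ℝ) / 2 < (r : ℝ) ^ 2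

theorem lt_half {D r : ℕ} : (r : ℝ) < Real.sqrt (D : ℝ) / 2 ↔ 4 * r ^ 2 < D := by
  rw [lt_div_iff₀ (by norm_num : (0 : ℝ) < 2), Real.lt_sqrt (by positivity)]
  constructor
  · intro h
    have : ((4 * r ^ 2 : ℕ) : ℝ) < (D : ℝ) := by push_cast; linarith
    exact_mod_cast this
  · intro h
    have : ((4 * r ^ 2 : ℕ) : ℝ) < (D : ℝ) := by exact_mod_cast h
    push_cast at this
    linarith

theorem half_lt {D r : ℕ} (h : D < 4 * r ^ 4) : Real.sqrt (D : ℝ) / 2 < (r : ℝ) ^ 2 := by
  rw [div_lt_iff₀ (by norm_num : (0 : ℝ) < 2), Real.sqrt_lt' (by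
    have : 0 < r := by
      rcases Nat.eq_zero_or_pos r with h0 | h0
      · subst h0; simp at h
      · exact h0
    positivity)]
  have : (D : ℝ) < ((4 * r ^ 4 : ℕ) : ℝ) := by exact_mod_cast h
  push_cast at this
  linarith

theorem TC_of {D : ℕ} (T : Finset ℕ) (hD8 : D % 8 = 5)
    (h1 : ∀ r, r.Prime → 4 * r ^ 2 < D → r ≠ 2 → (r ∈ T ↔ jacobiSym (D : ℤ) r ≠ -1))
    (h2 : ∀ r ∈ T, r.Prime ∧ 4 * r ^ 2 < D ∧ r ≠ 2)
    (h3 : 1 ≤ T.card) (h4 : T.card ≤ 2)
    (h5 : ∀ r ∈ T, jacobiSym (D : ℤ) r = 1 → D < 4 * r ^ 4) : TC D := by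
  refine ⟨T, ?_, h3, h4, ?_⟩
  · intro r
    rw [lt_half]
    constructor
    · intro h
      obtain ⟨a, b, c⟩ := h2 r h
      exact ⟨a, b, Or.inr ⟨c, (h1 r a b c).mp h⟩⟩
    · rintro ⟨a, b, c | c⟩
      · omega
      · exact (h1 r a b c.1).mpr c.2
  · intro r hr h
    rcases h with h | h
    · omega
    · exact half_lt (h5 r hr h.2)

theorem tc85 : TC 85 := by
  refine TC_of {3} (by norm_num) ?_ ?_ (by decide) (by decide) ?_
  · intro r hr h h2
    have : r < 5 := by nlinarith
    interval_cases r <;> first | (norm_num at hr; done) | (exact absurd rfl h2) | norm_num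
  · intro r hr
    simp only [Finset.mem_singleton] at hr
    subst hr; norm_num
  · intro r hr
    simp only [Finset.mem_singleton] at hr
    subst hr; norm_num

theorem tc365 : TC 365 := by
  refine TC_of {5, 7} (by norm_num) ?_ ?_ (by decide) (by decide) ?_
  · intro r hr h h2
    have : r < 10 := by nlinarith
    interval_cases r <;> first | (norm_num at hr; done) | (exact absurd rfl h2) | norm_num
  · intro r hr
    simp only [Finset.mem_singleton, Finset.mem_insert] at hr
    rcases hr with hr | hr <;> subst hr <;> norm_num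
  · intro r hr
    simp only [Finset.mem_singleton, Finset.mem_insert] at hr
    rcases hr with hr | hr <;> subst hr <;> norm_num

theorem tc533 : TC 533 := by
  refine TC_of {7, 11} (by norm_num) ?_ ?_ (by decide) (by decide) ?_
  · intro r hr h h2
    have : r < 12 := by nlinarith
    interval_cases r <;> first | (norm_num at hr; done) | (exact absurd rfl h2) | norm_num
  · intro r hr
    simp only [Finset.mem_singleton, Finset.mem_insert] at hr
    rcases hr with hr | hr <;> subst hr <;> norm_num
  · intro r hr
    simp only [Finset.mem_singleton, Finset.mem_insert] at hr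
    rcases hr with hr | hr <;> subst hr <;> norm_num

theorem tc629 : TC 629 := by
  refine TC_of {5} (by norm_num) ?_ ?_ (by decide) (by decide) ?_
  · intro r hr h h2
    have : r < 13 := by nlinarith
    interval_cases r <;> first | (norm_num at hr; done) | (exact absurd rfl h2) | norm_num
  · intro r hr
    simp only [Finset.mem_singleton, Finset.mem_insert] at hr
    subst hr; norm_num
  · intro r hr
    simp only [Finset.mem_singleton, Finset.mem_insert] at hr
    subst hr; norm_num

theorem tc965 : TC 965 := by
  refine TC_of {5, 13} (by norm_num) ?_ ?_ (by decide) (by decide) ?_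
  · intro r hr h h2
    have : r < 16 := by nlinarith
    interval_cases r <;> first | (norm_num at hr; done) | (exact absurd rfl h2) | norm_num
  · intro r hr
    simp only [Finset.mem_singleton, Finset.mem_insert] at hr
    rcases hr with hr | hr <;> subst hr <;> norm_num
  · intro r hr
    simp only [Finset.mem_singleton, Finset.mem_insert] at hr
    rcases hr with hr | hr <;> subst hr <;> norm_num

theorem tc1685 : TC 1685 := by
  refine TC_of {5, 17} (by norm_num) ?_ ?_ (by decide) (by decide) ?_
  · intro r hr h h2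
    have : r < 21 := by nlinarith
    interval_cases r <;> first | (norm_num at hr; done) | (exact absurd rfl h2) | norm_num
  · intro r hr
    simp only [Finset.mem_singleton, Finset.mem_insert] at hr
    rcases hr with hr | hr <;> subst hr <;> norm_num
  · intro r hr
    simp only [Finset.mem_singleton, Finset.mem_insert] at hr
    rcases hr with hr | hr <;> subst hr <;> norm_num

theorem tc1853 : TC 1853 := by
  refine TC_of {11, 17} (by norm_num) ?_ ?_ (by decide) (by decide) ?_
  · intro r hr h h2
    have : r < 22 := by nlinarith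
    interval_cases r <;> first | (norm_num at hr; done) | (exact absurd rfl h2) | norm_num
  · intro r hr
    simp only [Finset.mem_singleton, Finset.mem_insert] at hr
    rcases hr with hr | hr <;> subst hr <;> norm_num
  · intro r hr
    simp only [Finset.mem_singleton, Finset.mem_insert] at hr
    rcases hr with hr | hr <;> subst hr <;> norm_num

theorem tc2813 : TC 2813 := by
  refine TC_of {17, 19} (by norm_num) ?_ ?_ (by decide) (by decide) ?_
  · intro r hr h h2
    have : r < 27 := by nlinarith
    interval_cases r <;> first | (norm_num at hr; done) | (exact absurd rfl h2) | norm_num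
  · intro r hr
    simp only [Finset.mem_singleton, Finset.mem_insert] at hr
    rcases hr with hr | hr <;> subst hr <;> norm_num
  · intro r hr
    simp only [Finset.mem_singleton, Finset.mem_insert] at hr
    rcases hr with hr | hr <;> subst hr <;> norm_num

end Pool.Agent.N367.LE
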