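import Pool.Agent.N367.LE.Fin10
import Pool.Agent.N367.LE.Tab
import Pool.Agent.N862.LEGA

/-! Final statement, from the search. -/

namespace Pool.Agent.N367.LE

open H419R2 Pool.Agent.N911 Finset

theorem final (hPAR : S_PAR) (hG3 : S_G3) (hSM : S_SM10) (hSI : S_SI10) (hSR : S_SR10) :
    ∀ n D : ℕ, 0 < n → D = n ^ 2 + 4 → Squarefree D →
      ∀ (K : Type) [Field K] [NumberField K],
        Module.finrank ℚ K = 2 → (∃ x : K, x ^ 2 = (D : K)) →
        NumberField.classNumber K = 2 →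
        (∃ p q : ℕ, p.Prime ∧ q.Prime ∧ p < q ∧ p % 4 = 1 ∧ q % 4 = 1 ∧ D = p * q) ∧ TC D := by
  intro n D _ hD hsf K _ _ hK hx hcl
  have hn : n % 2 = 1 := by
    by_contra hc
    have hc' : n % 2 = 0 := by omega
    obtain ⟨k, rfl⟩ : ∃ k, n = 2 * k := ⟨n / 2, by omega⟩
    have h4 : 2 * 2 ∣ D := ⟨k ^ 2 + 1, by rw [hD]; ring⟩
    have := hsf 2 h4
    rw [Nat.isUnit_iff] at this
    omega
  have hH := Pool.Agent.N340.LEG0.g0 n D hn hD hsf K hK hx hcl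
  have hgr := Pool.Agent.N99.LEgr.gr
  have hsf' : Squarefree (n ^ 2 + 4) := hD ▸ hsf
  obtain ⟨p, q, hp, hq, hpq, hp4, hq4, hDpq⟩ :=
    Pool.Agent.N75.LEG1.g1 Pool.Agent.N545.LE.gu Pool.Agent.N862.LEGA.ga hgr n hn hsf' hH
  refine ⟨⟨p, q, hp, hq, hpq, hp4, hq4, by rw [hD, hDpq]⟩, ?_⟩
  rcases eight10 hPAR hSM hG3 hSI hSR hn hp hq hpq hp4 hq4 hDpq hH with
    h | h | h | h | h | h | h | h <;> subst h <;> norm_num at hD <;> subst hD
  · exact tc85
  · exact tc365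
  · exact tc533
  · exact tc629
  · exact tc965
  · exact tc1685
  · exact tc1853
  · exact tc2813

end Pool.Agent.N367.LE
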