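import Pool.Agent.N367.LE.Fin2
import Pool.Agent.N263.LEPAR
import Pool.Agent.N55.LEG3

/-! Final statement, only the search is a hypothesis. -/

namespace Pool.Agent.N367.LE

open H419R2 Pool.Agent.N911 Finset

theorem final3 (hSM : S_SM10) (hSI : S_SI10) (hSR : S_SR10) :
    ∀ n D : ℕ, 0 < n → D = n ^ 2 + 4 → Squarefree D →
      ∀ (K : Type) [Field K] [NumberField K],
        Module.finrank ℚ K = 2 → (∃ x : K, x ^ 2 = (D : K)) →
        NumberField.classNumber K = 2 →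
        (∃ p q : ℕ, p.Prime ∧ q.Prime ∧ p < q ∧ p % 4 = 1 ∧ q % 4 = 1 ∧ D = p * q) ∧ TC D :=
  final Pool.Agent.N263.LEPAR.par
    (Pool.Agent.N55.LEG3.g3 Pool.Agent.N545.LE.gu Pool.Agent.N99.LEgr.gr
      (Pool.Agent.N433.LE.g2 Pool.Agent.N99.LEgr.gr)) hSM hSI hSR

end Pool.Agent.N367.LE
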